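import Pool.Agent.D0H36.LW.Stm6
import Pool.Agent.D0H36.BL.SiteP

set_option autoImplicit false

/-!
# Project LW, module RC: replacing the content of a site keeps a graph connected
-/

namespace Pool.Agent.D0H81.LW

open Pool.Agent.D0H36.BL Pool.Agent.D0H36.LW

theorem t_RC : S_RC := by
  intro h n T G W hs K hK _ hG
  obtain ⟨r, x, hr, hx, hrx⟩ := hs.one
  have hW : ∀ w ∈ W, (repl G W hs.card K).Reachable r w := by
    intro w hw
    by_contra hcon
    obtain ⟨i, hi⟩ := exists_en hs.card hr
    obtain ⟨j, hj⟩ := exists_en hs.card hw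
    obtain ⟨a, b, c, d, ha, hb, hc, hd, hab, hcd, hne⟩ :=
      hK {i | (repl G W hs.card K).Reachable r (W.orderEmbOfFin hs.card i)}
        ⟨i, by
          show (repl G W hs.card K).Reachable r (W.orderEmbOfFin hs.card i)
          rw [hi]⟩
        ⟨j, by
          show ¬ (repl G W hs.card K).Reachable r (W.orderEmbOfFin hs.card j)
          rw [hj]
          exact hcon⟩
    apply hb
    have h1 : (repl G W hs.card K).Adj (W.orderEmbOfFin hs.card a) (W.orderEmbOfFin hs.card b) :=
      Or.inr ⟨a, b, rfl, rfl, hab⟩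
    exact SimpleGraph.Reachable.trans ha h1.reachable
  rw [SimpleGraph.connected_iff_exists_forall_reachable]
  refine ⟨r, fun z => ?_⟩
  have h2 := (SimpleGraph.reachable_iff_reflTransGen r z).1 (hG.preconnected r z)
  induction h2 with
  | refl => exact SimpleGraph.Reachable.refl _
  | @tail b c _ hbc ih =>
    by_cases hb : b ∈ W ∧ c ∈ W
    · exact hW c hb.2
    · exact ih.trans (SimpleGraph.Adj.reachable ((repl_off G W hs.card K hb).2 hbc))

end Pool.Agent.D0H81.LW
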